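import Pool.Agent.W937.FG.Stm

/-!
# FG-F: the fast growing functions
-/

set_option autoImplicit false

namespace Pool.Agent.W366.FG

open Function Pool.Agent.W937.FG

lemma iter_mono {f : ℕ → ℕ} (hf : Monotone f) (hid : ∀ n, n ≤ f n) {p q m m' : ℕ} (hpq : p ≤ q)
    (hm : m ≤ m') : f^[p] m ≤ f^[q] m' := by
  have h1 : f^[p] m ≤ f^[p] m' := hf.iterate p hm
  have h2 : f^[p] m' ≤ f^[q] m' := by
    induction q, hpq using Nat.le_induction with
    | base => exact le_rfl
    | succ q _ ih =>
      rw [iterate_succ_apply']
      exact ih.trans (hid _)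
  exact h1.trans h2

lemma le_iter {f : ℕ → ℕ} (hid : ∀ n, n ≤ f n) (p n : ℕ) : n ≤ f^[p] n := by
  induction p with
  | zero => exact le_rfl
  | succ p ih =>
    rw [iterate_succ_apply']
    exact ih.trans (hid _)

lemma F_both : ∀ k, Monotone (F k) ∧ ∀ n, n ≤ F k n := by
  intro k
  induction k with
  | zero =>
    refine ⟨fun m n h => ?_, fun n => ?_⟩
    · show m + 1 ≤ n + 1
      omega
    · show n ≤ n + 1
      omega
  | succ k ih =>
    refine ⟨fun m n h => ?_, fun n => ?_⟩
    · show (F k)^[m + 1] m ≤ (F k)^[n + 1] n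
      exact iter_mono ih.1 ih.2 (by omega) h
    · exact le_iter ih.2 (n + 1) n

lemma V_zero (a : ℕ → ℕ) (n : ℕ) : ∀ k, (∀ j ≤ k, a j = 0) → V a k n = n := by
  intro k
  induction k with
  | zero =>
    intro h
    show (F 0)^[a 0] n = n
    rw [h 0 le_rfl, iterate_zero_apply]
  | succ k ih =>
    intro h
    show (F (k + 1))^[a (k + 1)] (V a k n) = n
    rw [h (k + 1) le_rfl, iterate_zero_apply, ih fun j hj => h j (by omega)]

theorem main : PropF := by
  refine ⟨fun k => (F_both k).1, fun k => (F_both k).2, fun a k n => V_zero a n k, ?_, ?_, ?_⟩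
  · intro k n
    rcases k with _ | k
    · show (F 0)^[update (fun _ => 0) 0 1 0] n = F 0 n
      rw [update_self, iterate_one]
    · show (F (k + 1))^[update (fun _ => 0) (k + 1) 1 (k + 1)]
        (V (update (fun _ => 0) (k + 1) 1) k n) = F (k + 1) n
      rw [update_self, iterate_one, V_zero]
      intro j hj
      rw [update_of_ne (by omega)]
  · intro a a' k n n'
    induction k with
    | zero =>
      intro h hn
      exact iter_mono (F_both 0).1 (F_both 0).2 (h 0 le_rfl) hn
    | succ k ih =>
      intro h hn
      exact iter_mono (F_both (k + 1)).1 (F_both (k + 1)).2 (h (k + 1) le_rfl)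
        (ih (fun j hj => h j (by omega)) hn)
  · intro k
    induction k with
    | zero =>
      intro n _
      rw [ack_zero]
      exact le_rfl
    | succ k ih =>
      have key : ∀ n, ack (k + 1) n ≤ (F k)^[n + 1] 1 := by
        intro n
        induction n with
        | zero =>
          rw [ack_succ_zero]
          exact ih 1 le_rfl
        | succ n ihn =>
          rw [ack_succ_succ, iterate_succ_apply']
          exact (ih _ (ack_pos _ _)).trans ((F_both k).1 ihn)
      intro n hn
      exact (key n).trans (iter_mono (F_both k).1 (F_both k).2 le_rfl hn)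

end Pool.Agent.W366.FG
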